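import Pool.Agent.H21.G2.Pop

/-!
# Two families of copies through one point

`fl_cop`: what is full given `z` is full given `z` and the directions of all copies. `ind_cop`: a label
of the first family has as many bits given `z` as given `z` and the second family.
-/

set_option autoImplicit false

namespace Pool.V02G

open Finset Real
open Pool.Agent.H49.Ent Pool.Agent.H32.Dense Pool.STK Pool.D2A Pool.D2Con
open Pool.BFL (Pb)
open Pool.D2G30 (Pb_nn)

section pb

variable {W : Type} [Fintype W] {q : W → ℝ}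

theorem Pb_or' (h0 : ∀ w, 0 ≤ q w) (A B : W → Prop) :
    Pb q (fun w => A w ∨ B w) ≤ Pb q A + Pb q B := by
  classical
  unfold Pb
  rw [← Finset.sum_add_distrib]
  refine Finset.sum_le_sum fun w _ => ?_
  have := h0 w
  by_cases hA : A w
  · rw [if_pos (Or.inl hA), if_pos hA]
    split_ifs <;> linarith
  · by_cases hB : B w
    · rw [if_pos (Or.inr hB), if_neg hA, if_pos hB, zero_add]
    · rw [if_neg (fun h => h.elim hA hB), if_neg hA, if_neg hB, zero_add]

theorem Pb_ex' {ι : Type} [Fintype ι] (h0 : ∀ w, 0 ≤ q w) (A : ι → W → Prop) :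
    Pb q (fun w => ∃ i, A i w) ≤ ∑ i, Pb q (A i) := by
  classical
  unfold Pb
  rw [Finset.sum_comm]
  refine Finset.sum_le_sum fun w _ => ?_
  have hw := h0 w
  have hn : ∀ i, (0 : ℝ) ≤ if A i w then q w else 0 := fun i => by
    split_ifs
    exacts [hw, le_rfl]
  by_cases h : ∃ i, A i w
  · obtain ⟨i, hi⟩ := h
    rw [if_pos ⟨i, hi⟩]
    have h1 := Finset.single_le_sum (f := fun i => if A i w then q w else 0) (fun i _ => hn i)
      (Finset.mem_univ i)
    simp only [if_pos hi] at h1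
    exact h1
  · rw [if_neg h]
    exact Finset.sum_nonneg fun i _ => hn i

theorem Pb_compl (h1 : ∑ w, q w = 1) (A : W → Prop) : Pb q (fun w => ¬ A w) = 1 - Pb q A := by
  classical
  unfold Pb
  rw [← h1, ← Finset.sum_sub_distrib]
  refine Finset.sum_congr rfl fun w _ => ?_
  by_cases h : A w
  · rw [if_neg (not_not.2 h), if_pos h, sub_self]
  · rw [if_pos h, if_neg h, sub_zero]

theorem Pb_mg {Ω : Type} [Fintype Ω] {p : Ω → ℝ} {f : W → Ω} (h : Marg q p f) (A : Ω → Prop) :
    Pb q (fun w => A (f w)) = Pb p A := by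
  rw [← Pool.V1E.Pb_law, ← Pool.V1E.Pb_law]
  exact h.law A True

end pb

/-! ### The law of the copies -/

variable {Ω ζ ρ ε χ : Type} [Fintype Ω] {N : ℕ}

/-- `N` copies given `x`. -/
noncomputable def CL (q : Ω → ℝ) (x : Ω → ρ) (N : ℕ) : (Ω × Ω) × (Fin N → Ω × Ω) → ℝ :=
  PL q x x (fun _ : Fin N => true)

/-- The copy number `r`. -/
def co (r : Fin N) (w : (Ω × Ω) × (Fin N → Ω × Ω)) : Ω := cp (fun _ : Fin N => true) r w

section law

variable {q : Ω → ℝ} {x : Ω → ρ}

theorem CL_isLaw (hq : IsLaw q) (x : Ω → ρ) (N : ℕ) : IsLaw (CL q x N) := PL_isLaw hq x x _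

theorem CL_pos (hq : IsLaw q) {w : (Ω × Ω) × (Fin N → Ω × Ω)} (hw : 0 < CL q x N w) :
    0 < q w.1.1 ∧ ∀ r, 0 < q (co r w) ∧ x (co r w) = x w.1.1 := by
  obtain ⟨a1, a2, a3, a4⟩ := PL_pos hq x x _ hw
  exact ⟨a1, fun r => ⟨(a4 r).1, (a4 r).2.symm⟩⟩

theorem CL_fst (hq : IsLaw q) (x : Ω → ρ) (N : ℕ) : Marg (CL q x N) q (fun w => w.1.1) :=
  PL_fst hq x x _

theorem CL_co (hq : IsLaw q) (x : Ω → ρ) (r : Fin N) : Marg (CL q x N) q (co r) :=
  PL_cp hq x x _ r

/-- The copies are independent given the base. -/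
theorem CL_all (hq : IsLaw q) (x : Ω → ρ) (N : ℕ) (E : Ω → ε) :
    N * CH q E x ≤ CH (CL q x N) (fun w r => E (co r w)) (fun w => w.1) := by
  have h := cop_all hq x x (fun _ : Fin N => true) (fun _ => E)
  rw [Finset.sum_const, Finset.card_univ, Fintype.card_fin, nsmul_eq_mul] at h
  exact h

/-- A record which is a function of the point. -/
theorem CL_rec (hq : IsLaw q) {z : Ω → ζ} (hz : Det q x z) (E : Ω → ε) (r : Fin N) :
    CH (CL q x N) (fun w => E (co r w)) (fun w => z w.1.1) = CH q E z := by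
  rw [← (CL_co hq x r).CH E z]
  have h0 := (CL_isLaw hq x N).nonneg
  have hzz : ∀ w, 0 < CL q x N w → z (co r w) = z w.1.1 := fun w hw =>
    hz _ _ ((CL_pos hq hw).2 r).1 (CL_pos hq hw).1 ((CL_pos hq hw).2 r).2
  refine CH_congr h0 (fun _ _ _ _ h => (Prod.ext_iff.1 h).1)
    (fun _ _ _ _ h => (Prod.ext_iff.1 h).1) (fun w w' hw hw' h => ?_) (fun w w' hw hw' h => ?_)
  · show z (co r w) = z (co r w')
    rw [hzz w hw, hzz w' hw']
    exact h
  · show z w.1.1 = z w'.1.1
    rw [← hzz w hw, ← hzz w' hw']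
    exact h

/-- **Full given the directions of all copies.** -/
theorem fl_cop (hq : IsLaw q) {z : Ω → ζ} (hz : Det q x z) (p : Ω → χ)
    (E : Ω → ε) {δ₁ : ℝ} (hfree : CH q E z ≤ CH q E x + δ₁) :
    CH q p z - N * δ₁ ≤ CH (CL q x N) (fun w => p w.1.1)
      (fun w => ((fun r => E (co r w)), z w.1.1)) := by
  have h0 := (CL_isLaw hq x N).nonneg
  have h1 := CH_bayes h0 (fun w => p w.1.1) (fun w r => E (co r w)) (fun w => z w.1.1)
  have h2 : CH (CL q x N) (fun w => p w.1.1) (fun w => z w.1.1) = CH q p z :=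
    (CL_fst hq x N).CH p z
  have h3 : CH (CL q x N) (fun w r => E (co r w)) (fun w => z w.1.1) ≤ N * CH q E z := by
    refine (CH_fam h0 _ _).trans ?_
    rw [Finset.sum_congr rfl fun r _ => CL_rec hq hz E r, Finset.sum_const, Finset.card_univ,
      Fintype.card_fin, nsmul_eq_mul]
  have h4 : CH (CL q x N) (fun w r => E (co r w)) (fun w => w.1) ≤
      CH (CL q x N) (fun w r => E (co r w)) (fun w => (p w.1.1, z w.1.1)) :=
    CH_mono_cond h0 fun w w' _ _ h => by
      show (p w.1.1, z w.1.1) = (p w'.1.1, z w'.1.1)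
      have h5 : w.1 = w'.1 := h
      rw [h5]
  have h5 := CL_all hq x N E
  have h6 : (N : ℝ) * CH q E z ≤ N * (CH q E x + δ₁) :=
    mul_le_mul_of_nonneg_left hfree (Nat.cast_nonneg N)
  linarith

end law

section two

variable {q : Ω → ℝ} {x : Ω → ρ} {n : ℕ}

/-- **A label of the first family.** -/
theorem ind_cop (hq : IsLaw q) {z : Ω → ζ} (hz : Det q x z) (E : Ω → ε) {δ₁ : ℝ}
    (hfree : CH q E z ≤ CH q E x + δ₁) (c : (Ω × Ω) × (Fin (n + n) → Ω × Ω) → χ)
    (hc : Det (CL q x (n + n)) (fun w => ((fun i : Fin n => E (co (Fin.castAdd n i) w)), z w.1.1))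
      c) :
    CH (CL q x (n + n)) c (fun w => z w.1.1) ≤
      CH (CL q x (n + n)) c (fun w => ((fun i : Fin n => E (co (Fin.natAdd n i) w)), z w.1.1)) +
        n * δ₁ := by
  have h0 := (CL_isLaw hq x (n + n)).nonneg
  obtain ⟨Q, hQ⟩ : ∃ Q, Q = CL q x (n + n) := ⟨_, rfl⟩
  obtain ⟨e, he⟩ : ∃ e : (Ω × Ω) × (Fin (n + n) → Ω × Ω) → Fin n → ε,
    e = fun w i => E (co (Fin.castAdd n i) w) := ⟨_, rfl⟩
  obtain ⟨e', he'⟩ : ∃ e' : (Ω × Ω) × (Fin (n + n) → Ω × Ω) → Fin n → ε,
    e' = fun w i => E (co (Fin.natAdd n i) w) := ⟨_, rfl⟩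
  have h1 := CH_bayes h0 c e' (fun w => z w.1.1)
  have hx : ∀ r : Fin (n + n), CH (CL q x (n + n)) (fun w => E (co r w)) (fun w => w.1) ≤
      CH q E x := by
    intro r
    rw [← (CL_co hq x r).CH E x]
    refine CH_mono_cond h0 fun w w' hw hw' h => ?_
    show x (co r w) = x (co r w')
    have h5 : w.1 = w'.1 := h
    rw [((CL_pos hq hw).2 r).2, ((CL_pos hq hw').2 r).2, h5]
  have h2 : CH (CL q x (n + n)) e' (fun w => z w.1.1) ≤ n * CH q E z := by
    rw [he']
    refine (CH_fam h0 _ _).trans ?_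
    rw [Finset.sum_congr rfl fun (i : Fin n) _ => CL_rec hq hz E (Fin.natAdd n i),
      Finset.sum_const, Finset.card_univ, Fintype.card_fin, nsmul_eq_mul]
  have h3 : CH (CL q x (n + n)) e (fun w => w.1) ≤ n * CH q E x := by
    rw [he]
    refine (CH_fam h0 _ _).trans ?_
    refine (Finset.sum_le_card_nsmul _ _ (CH q E x) fun i _ => hx _).trans (le_of_eq ?_)
    rw [Finset.card_univ, Fintype.card_fin, nsmul_eq_mul]
  have h4 : CH (CL q x (n + n)) (fun w r => E (co r w)) (fun w => w.1) ≤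
      CH (CL q x (n + n)) (fun w => (e' w, e w)) (fun w => w.1) :=
    CH_mono_left h0 fun w w' _ _ h => by
      simp only [Prod.mk.injEq] at h
      funext r
      refine Fin.addCases (fun i => ?_) (fun i => ?_) r
      · have h5 := congrFun h.1.2 i
        rw [he] at h5
        exact h5
      · have h5 := congrFun h.1.1 i
        rw [he'] at h5
        exact h5
  have h5 := CH_chain h0 e' e (fun w : (Ω × Ω) × (Fin (n + n) → Ω × Ω) => w.1)
  have h6 := CL_all hq x (n + n) E
  have h7 : CH (CL q x (n + n)) e' (fun w => (e w, w.1)) ≤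
      CH (CL q x (n + n)) e' (fun w => (c w, z w.1.1)) :=
    CH_mono_cond h0 fun w w' hw hw' h => by
      simp only [Prod.mk.injEq] at h
      have h8 : (((fun i : Fin n => E (co (Fin.castAdd n i) w)), z w.1.1) : (Fin n → ε) × ζ) =
          ((fun i : Fin n => E (co (Fin.castAdd n i) w')), z w'.1.1) := by
        have h9 := h.1
        rw [he] at h9
        refine Prod.ext h9 ?_
        show z w.1.1 = z w'.1.1
        rw [h.2]
      show (c w, z w.1.1) = (c w', z w'.1.1)
      rw [hc w w' hw hw' h8, h.2]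
  have h8 : (n : ℝ) * CH q E z ≤ n * (CH q E x + δ₁) :=
    mul_le_mul_of_nonneg_left hfree (Nat.cast_nonneg n)
  have h9 : ((n + n : ℕ) : ℝ) * CH q E x = n * CH q E x + n * CH q E x := by
    push_cast
    ring
  rw [h9] at h6
  rw [he'] at h1 h2 h5 h7 h4
  linarith

end two

end Pool.V02G
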