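import Pool.Agent.H66.D2.Cop

/-!
# The covector of a family of copies

`mu`: the covector with `X_i · mu = - F_i / H_i`, `H_i = G · X_i`, if the family is good.
-/

set_option autoImplicit false

namespace Pool.V02G

open Finset Real
open Pool.D2A

variable {β : Type} {n : ℕ}

/-- The family is good. -/
def Gd (η : ℝ) (G : Fin n → ℝ) (Xe : Fin n → Fin n → ℝ) : Prop :=
  η ^ n ≤ |(Matrix.of Xe).det| ∧ ∀ i, η < |∑ l, G l * Xe i l|

open Classical in
/-- **The covector of the family.** -/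
noncomputable def mu (η : ℝ) (G : Fin n → ℝ) (Fe : Fin n → β → ℝ) (Xe : Fin n → Fin n → ℝ)
    (b : β) (j : Fin n) : ℝ :=
  if Gd η G Xe then -∑ i, (Matrix.of Xe)⁻¹ j i * (Fe i b / ∑ l, G l * Xe i l) else 0

section alg

variable {η B : ℝ} {G : Fin n → ℝ} {Fe : Fin n → β → ℝ} {Xe : Fin n → Fin n → ℝ}

theorem mu_eq (hη : 0 < η) (h : Gd η G Xe) (i : Fin n) (b : β) :
    ∑ j, Xe i j * mu η G Fe Xe b j = -(Fe i b / ∑ l, G l * Xe i l) := by
  have hne : (Matrix.of Xe).det ≠ 0 := by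
    intro h0
    have h1 := h.1
    rw [h0, abs_zero] at h1
    have := pow_pos hη n
    linarith
  have hu : IsUnit (Matrix.of Xe).det := isUnit_iff_ne_zero.mpr hne
  have h1 : Matrix.of Xe * (Matrix.of Xe)⁻¹ = 1 := Matrix.mul_nonsing_inv _ hu
  have h2 := congrFun (congrArg (fun M : Matrix (Fin n) (Fin n) ℝ =>
    M.mulVec fun i => Fe i b / ∑ l, G l * Xe i l) h1) i
  rw [Matrix.one_mulVec, ← Matrix.mulVec_mulVec] at h2
  have h3 : ∑ j, Xe i j * (∑ c, (Matrix.of Xe)⁻¹ j c * (Fe c b / ∑ l, G l * Xe c l)) =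
      Fe i b / ∑ l, G l * Xe i l := h2
  have h4 : ∑ j, Xe i j * mu η G Fe Xe b j =
      -∑ j, Xe i j * (∑ c, (Matrix.of Xe)⁻¹ j c * (Fe c b / ∑ l, G l * Xe c l)) := by
    rw [← Finset.sum_neg_distrib]
    refine Finset.sum_congr rfl fun j _ => ?_
    unfold mu
    rw [if_pos h]
    ring
  rw [h4, h3]

theorem mu_bd (hη : 0 < η) (hB1 : 1 ≤ B) (hB : ∀ i j, |Xe i j| ≤ B) {Fm : ℝ} (hFm : 0 ≤ Fm)
    (hF : ∀ i b, |Fe i b| ≤ Fm) (b : β) (j : Fin n) :
    |mu η G Fe Xe b j| ≤ cK n B (η ^ n) * (Fm / η) := by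
  have hc : 0 ≤ cK n B (η ^ n) := cK_nonneg (by linarith) (pow_pos hη n)
  by_cases h : Gd η G Xe
  · refine cramer_cK (Matrix.of Xe) (fun j => mu η G Fe Xe b j) hB1 hB (pow_pos hη n) h.1
      (fun i => ?_) j
    have h1 := mu_eq (Fe := Fe) hη h i b
    have h2 : ∑ j, (Matrix.of Xe) i j * mu η G Fe Xe b j = -(Fe i b / ∑ l, G l * Xe i l) := h1
    rw [h2, abs_neg, abs_div]
    exact div_le_div₀ hFm (hF i b) hη (h.2 i).le
  · unfold mu
    rw [if_neg h, abs_zero]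
    exact mul_nonneg hc (div_nonneg hFm hη.le)

variable {ι : Type} [Fintype ι] {Fi : Fin n → ι → ℝ}

/-- The value of the unknown covector. -/
theorem mu_val (hη : 0 < η) (hB1 : 1 ≤ B) (hB : ∀ i j, |Xe i j| ≤ B) (h : Gd η G Xe)
    (L : ι → ℝ) (M : Fin n → ℝ) {lam : ℝ} (hl : 0 ≤ lam)
    (hr : ∀ i, |∑ b, L b * Fi i b + (∑ l, G l * Xe i l) * ∑ j, M j * Xe i j| ≤ lam) (j : Fin n) :
    |M j - ∑ b, L b * mu η G Fi Xe b j| ≤ cK n B (η ^ n) * (lam / η) := by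
  refine cramer_cK (Matrix.of Xe) (fun j => M j - ∑ b, L b * mu η G Fi Xe b j) hB1 hB
    (pow_pos hη n) h.1 (fun i => ?_) j
  have hH : η < |∑ l, G l * Xe i l| := h.2 i
  have hH0 : 0 < |∑ l, G l * Xe i l| := hη.trans hH
  have hHn : (∑ l, G l * Xe i l) ≠ 0 := abs_pos.1 hH0
  have e1 : ∑ j, (Matrix.of Xe) i j * (M j - ∑ b, L b * mu η G Fi Xe b j) =
      (∑ b, L b * Fi i b + (∑ l, G l * Xe i l) * ∑ j, M j * Xe i j) / ∑ l, G l * Xe i l := by
    have e2 : ∑ j, Xe i j * ∑ b, L b * mu η G Fi Xe b j =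
        -((∑ b, L b * Fi i b) / ∑ l, G l * Xe i l) := by
      have e3 : ∑ j, Xe i j * ∑ b, L b * mu η G Fi Xe b j =
          ∑ b, L b * ∑ j, Xe i j * mu η G Fi Xe b j := by
        simp only [Finset.mul_sum]
        rw [Finset.sum_comm]
        exact Finset.sum_congr rfl fun b _ => Finset.sum_congr rfl fun j _ => by ring
      rw [e3, Finset.sum_div, ← Finset.sum_neg_distrib]
      refine Finset.sum_congr rfl fun b _ => ?_
      rw [mu_eq hη h]
      ring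
    have e4 : ∑ j, (Matrix.of Xe) i j * (M j - ∑ b, L b * mu η G Fi Xe b j) =
        ∑ j, M j * Xe i j - ∑ j, Xe i j * ∑ b, L b * mu η G Fi Xe b j := by
      rw [← Finset.sum_sub_distrib]
      exact Finset.sum_congr rfl fun j _ => by
        rw [Matrix.of_apply]
        ring
    rw [e4, e2]
    field_simp
    ring
  rw [e1, abs_div]
  exact div_le_div₀ hl (hr i) hη hH.le

/-- **The relation of a further copy**, with the covector of the family. -/
theorem mu_rel (hη : 0 < η) (hB1 : 1 ≤ B) (hB : ∀ i j, |Xe i j| ≤ B) (h : Gd η G Xe)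
    (hG : ∀ l, |G l| ≤ 1) (L : ι → ℝ) (M : Fin n → ℝ) {lam : ℝ} (hl : 0 ≤ lam)
    (hr : ∀ i, |∑ b, L b * Fi i b + (∑ l, G l * Xe i l) * ∑ j, M j * Xe i j| ≤ lam)
    (F0 : ι → ℝ) (X0 : Fin n → ℝ) (hX0 : ∀ j, |X0 j| ≤ B)
    (h0 : |∑ b, L b * F0 b + (∑ l, G l * X0 l) * ∑ j, M j * X0 j| ≤ lam) :
    |∑ b, L b * (F0 b + (∑ l, G l * X0 l) * ∑ j, X0 j * mu η G Fi Xe b j)| ≤
      lam + (n * B) * (n * B * (cK n B (η ^ n) * (lam / η))) := by
  have hv := mu_val hη hB1 hB h L M hl hr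
  have hH0 : |∑ l, G l * X0 l| ≤ n * B := by
    refine (Finset.abs_sum_le_sum_abs _ _).trans ?_
    refine (Finset.sum_le_card_nsmul _ _ B fun l _ => ?_).trans (le_of_eq ?_)
    · rw [abs_mul]
      calc |G l| * |X0 l| ≤ 1 * B := mul_le_mul (hG l) (hX0 l) (abs_nonneg _) zero_le_one
        _ = B := one_mul _
    · rw [Finset.card_univ, Fintype.card_fin, nsmul_eq_mul]
  have e1 : ∑ b, L b * (F0 b + (∑ l, G l * X0 l) * ∑ j, X0 j * mu η G Fi Xe b j) =
      (∑ b, L b * F0 b + (∑ l, G l * X0 l) * ∑ j, M j * X0 j) -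
        (∑ l, G l * X0 l) * ∑ j, X0 j * (M j - ∑ b, L b * mu η G Fi Xe b j) := by
    have e2 : ∑ b, L b * ((∑ l, G l * X0 l) * ∑ j, X0 j * mu η G Fi Xe b j) =
        (∑ l, G l * X0 l) * ∑ j, X0 j * ∑ b, L b * mu η G Fi Xe b j := by
      have e3 : ∑ j, X0 j * ∑ b, L b * mu η G Fi Xe b j =
          ∑ b, L b * ∑ j, X0 j * mu η G Fi Xe b j := by
        simp only [Finset.mul_sum]
        rw [Finset.sum_comm]
        exact Finset.sum_congr rfl fun b _ => Finset.sum_congr rfl fun j _ => by ring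
      rw [e3, Finset.mul_sum]
      exact Finset.sum_congr rfl fun b _ => by ring
    have e4 : ∑ j, X0 j * (M j - ∑ b, L b * mu η G Fi Xe b j) =
        ∑ j, M j * X0 j - ∑ j, X0 j * ∑ b, L b * mu η G Fi Xe b j := by
      rw [← Finset.sum_sub_distrib]
      exact Finset.sum_congr rfl fun j _ => by ring
    simp only [mul_add, Finset.sum_add_distrib]
    rw [e2, e4]
    ring
  rw [e1]
  refine (abs_sub _ _).trans (add_le_add h0 ?_)
  rw [abs_mul]
  refine mul_le_mul hH0 ?_ (abs_nonneg _) (by positivity)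
  refine (Finset.abs_sum_le_sum_abs _ _).trans ?_
  refine (Finset.sum_le_card_nsmul _ _ (B * (cK n B (η ^ n) * (lam / η))) fun j _ => ?_).trans
    (le_of_eq ?_)
  · rw [abs_mul]
    exact mul_le_mul (hX0 j) (hv j) (abs_nonneg _) (by linarith)
  · rw [Finset.card_univ, Fintype.card_fin, nsmul_eq_mul]
    ring

/-- **Two families** have the same covector. -/
theorem mu_two (hη : 0 < η) (hB1 : 1 ≤ B) {Fe' : Fin n → β → ℝ} {Xe' : Fin n → Fin n → ℝ}
    (hB' : ∀ i j, |Xe' i j| ≤ B) (h' : Gd η G Xe') {V : ℝ} (hV : 0 ≤ V) (b : β)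
    (hr : ∀ i, |Fe' i b + (∑ l, G l * Xe' i l) * ∑ j, Xe' i j * mu η G Fe Xe b j| ≤ V)
    (j : Fin n) :
    |mu η G Fe Xe b j - mu η G Fe' Xe' b j| ≤ cK n B (η ^ n) * (V / η) := by
  refine cramer_cK (Matrix.of Xe') (fun j => mu η G Fe Xe b j - mu η G Fe' Xe' b j) hB1 hB'
    (pow_pos hη n) h'.1 (fun i => ?_) j
  have hH : η < |∑ l, G l * Xe' i l| := h'.2 i
  have hH0 : 0 < |∑ l, G l * Xe' i l| := hη.trans hH
  have hHn : (∑ l, G l * Xe' i l) ≠ 0 := abs_pos.1 hH0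
  have e1 : ∑ j, (Matrix.of Xe') i j * (mu η G Fe Xe b j - mu η G Fe' Xe' b j) =
      (Fe' i b + (∑ l, G l * Xe' i l) * ∑ j, Xe' i j * mu η G Fe Xe b j) /
        ∑ l, G l * Xe' i l := by
    have e4 : ∑ j, (Matrix.of Xe') i j * (mu η G Fe Xe b j - mu η G Fe' Xe' b j) =
        ∑ j, Xe' i j * mu η G Fe Xe b j - ∑ j, Xe' i j * mu η G Fe' Xe' b j := by
      rw [← Finset.sum_sub_distrib]
      exact Finset.sum_congr rfl fun j _ => by
        rw [Matrix.of_apply]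
        ring
    rw [e4, mu_eq hη h']
    field_simp
    ring
  rw [e1, abs_div]
  exact div_le_div₀ hV (hr i) hη hH.le

end alg

end Pool.V02G
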