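import Pool.Agent.H21.G2.Cop
import Pool.Agent.H21.G2.Mu

/-!
# The covector is a polynomial of the point (K_V02, G2)

`g2a`: if `P (p; X) + (Gam · X) (M · X)` is small, `P` a polynomial in the digits `p` of the point with
coefficients which are functions of the closed record `z` and of the direction, `M` a function of the
point, the direction `E` nearly free, then on an event which is not too small `M` is a polynomial in `p`
with coefficients which are functions of `z`, and the identity holds for all `p`.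
-/

set_option autoImplicit false

namespace Pool.V02G

open Finset Real
open Pool.Agent.H49.Ent Pool.Agent.H32.Dense Pool.STK Pool.D2A Pool.D2Con Pool.D2G30
open Pool.BFL (Pb)

variable {Ω ζ ρ ε : Type} [Fintype Ω] {n d K k : ℕ}

/-- A function of a coarser record. -/
theorem nh_det {q : Ω → ℝ} (h0 : ∀ ω, 0 ≤ q ω) {X : Ω → Fin n → ℝ} {x : Ω → ρ} {z : Ω → ζ}
    {η c : ℝ} (h : NoHyp q X x η c) (hz : Det q x z) : NoHyp q X z η c := by
  classical
  intro m hm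
  obtain ⟨m', hm'⟩ : ∃ m' : ρ → Fin n → ℝ, m' = fun a =>
    if h : ∃ ω, 0 < q ω ∧ x ω = a then m (z h.choose) else 0 := ⟨_, rfl⟩
  have e1 : ∀ ω, 0 < q ω → m' (x ω) = m (z ω) := by
    intro ω hω
    have hex : ∃ ω', 0 < q ω' ∧ x ω' = x ω := ⟨ω, hω, rfl⟩
    rw [hm']
    simp only [dif_pos hex]
    rw [hz _ _ hex.choose_spec.1 hω hex.choose_spec.2]
  have h1 := h m' fun ω hω => by
    rw [e1 ω hω]
    exact hm ω hω
  refine le_trans ?_ h1
  rw [Pool.V1E.Pb_law, Pool.V1E.Pb_law]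
  refine Pb_mono' h0 fun ω hω h2 => ?_
  rw [e1 ω hω]
  exact h2

/-- The data. -/
structure Dat (q : Ω → ℝ) (z : Ω → ζ) (x : Ω → ρ) (E : Ω → ε) (X : ε → Fin n → ℝ)
    (p : Ω → Fin d → ℕ) (M : Ω → Fin n → ℝ) (Gam : ζ → Fin n → ℝ)
    (F : ζ → ε → (Fin d → Fin (K + 1)) → ℝ) (k : ℕ) (B η c lam Fm δ₀ δ₁ δ₂ : ℝ) : Prop where
  hq : IsLaw q
  hz : Det q x z
  hp : Det q x p
  hM : Det q x M
  hp2 : ∀ ω, 0 < q ω → ∀ i, p ω i < 2 ^ k
  hX : ∀ ω, 0 < q ω → ∀ j, |X (E ω) j| ≤ B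
  hG : ∀ ω, 0 < q ω → (∀ j, |Gam (z ω) j| ≤ 1) ∧ ∃ j, |Gam (z ω) j| = 1
  hF : ∀ ω, 0 < q ω → ∀ β, |F (z ω) (E ω) β| ≤ Fm
  nh : NoHyp q (fun ω => X (E ω)) x η c
  hrel : Pb q (fun ω => lam < |∑ β, ell K β (fun i => (p ω i : ℝ) / 2 ^ k) * F (z ω) (E ω) β +
    (∑ l, Gam (z ω) l * X (E ω) l) * ∑ j, M ω j * X (E ω) j|) ≤ δ₀
  hfree : CH q E z ≤ CH q E x + δ₁
  hfull : d * (k * Real.log 2) - δ₂ ≤ CH q p z

/-- Sums with the basis polynomials. -/
theorem ell_sum {x : Fin d → ℝ} (h0 : ∀ i, 0 ≤ x i) (h1 : ∀ i, x i ≤ 1)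
    (a : (Fin d → Fin (K + 1)) → ℝ) {A : ℝ} (ha : ∀ β, |a β| ≤ A) :
    |∑ β, ell K β x * a β| ≤ (K + 1) ^ d * lgC K ^ d * A := by
  have hC : (0 : ℝ) ≤ lgC K ^ d := pow_nonneg (zero_le_one.trans (one_le_lgC K)) d
  refine (Finset.abs_sum_le_sum_abs _ _).trans ?_
  refine (Finset.sum_le_card_nsmul _ _ (lgC K ^ d * A) fun β _ => ?_).trans (le_of_eq ?_)
  · rw [abs_mul]
    exact mul_le_mul (ell_bd β (fun i => by linarith [h0 i]) (fun i => by linarith [h1 i])) (ha β)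
      (abs_nonneg _) hC
  · rw [Finset.card_univ, card_grid, nsmul_eq_mul]
    push_cast
    ring

section main

variable {q : Ω → ℝ} {z : Ω → ζ} {x : Ω → ρ} {E : Ω → ε} {X : ε → Fin n → ℝ}
  {p : Ω → Fin d → ℕ} {M : Ω → Fin n → ℝ} {Gam : ζ → Fin n → ℝ}
  {F : ζ → ε → (Fin d → Fin (K + 1)) → ℝ} {B η c lam Fm δ₀ δ₁ δ₂ : ℝ}

/-- The bound of the covectors. -/
noncomputable def Mm (n : ℕ) (B η Fm : ℝ) : ℝ := cK n B (η ^ n) * (Fm / η)

/-- The size of the relation of the reading. -/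
noncomputable def lam1 (n : ℕ) (B η lam : ℝ) : ℝ :=
  lam + (n * B) * (n * B * (cK n B (η ^ n) * (lam / η)))

/-- **The covector is a polynomial of the point.** -/
theorem g2a (D : Dat q z x E X p M Gam F k B η c lam Fm δ₀ δ₁ δ₂) (hn : 1 ≤ n) (hd : 1 ≤ d)
    (hK : 1 ≤ K) (hB : 1 ≤ B) (hη : 0 < η) (hlam : 0 ≤ lam) (hFm : 0 ≤ Fm) {u v : ℕ}
    (hu : ((K : ℝ) + 1) ^ d * (lam1 n B η lam + (K + 1) ^ d * lgC K ^ d) + 2 ≤ 2 ^ u)
    (huv : u ≤ v) (hvk : v ≤ u + k) {δ₃ : ℝ}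
    (hR : 0 < (((v : ℝ) - u) / (K * d) - 1) * Real.log 2 - Real.log (d * K))
    (hδ₃ : δ₂ + (n + n : ℕ) * δ₁ + Real.log 2 ≤
      δ₃ * ((((v : ℝ) - u) / (K * d) - 1) * Real.log 2 - Real.log (d * K)))
    {bad : ℝ} (hbad : 4 * n * c + 2 * n * δ₀ + n * δ₃ ≤ bad) (hbad2 : bad ≤ 1 / 2) {h : ℝ}
    (hh : Real.log 2 + (K + 1) ^ d * n * (Real.log (2 * (2 * (cK n B (η ^ n) * (2 ^ v / η)) + 1) + 1) +
      bad * Real.log (4 * (Mm n B η Fm + 1) + 1)) + n * δ₁ ≤ h) :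
    ∃ ms : ζ → (Fin d → Fin (K + 1)) → Fin n → ℝ,
      Real.exp (-(2 * (h + Real.log 2))) / 2 ≤ Pb q (fun ω =>
        (∀ j, |M ω j - ∑ β, ell K β (fun i => (p ω i : ℝ) / 2 ^ k) * ms (z ω) β j| ≤
          cK n B (η ^ n) * (lam / η) + (K + 1) ^ d * lgC K ^ d) ∧
        (∀ β, |F (z ω) (E ω) β + (∑ l, Gam (z ω) l * X (E ω) l) *
          ∑ j, X (E ω) j * ms (z ω) β j| ≤ n * B * (n * B)) ∧
        ∀ β j, |ms (z ω) β j| ≤ Mm n B η Fm + 1) := by
  classical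
  have hκ : 0 < η ^ n := pow_pos hη n
  have hcK : 0 ≤ cK n B (η ^ n) := cK_nonneg (by linarith) hκ
  obtain ⟨Q, hQ⟩ : ∃ Q, Q = CL q x (n + n) := ⟨_, rfl⟩
  have hQl : IsLaw Q := by
    rw [hQ]
    exact CL_isLaw D.hq x _
  have h0 := hQl.nonneg
  -- the copies
  have hpos : ∀ w, 0 < Q w → 0 < q w.1.1 ∧ ∀ r, 0 < q (co r w) ∧ x (co r w) = x w.1.1 := by
    intro w hw
    rw [hQ] at hw
    exact CL_pos D.hq hw
  have hzr : ∀ w, 0 < Q w → ∀ r, z (co r w) = z w.1.1 := fun w hw r =>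
    D.hz _ _ ((hpos w hw).2 r).1 (hpos w hw).1 ((hpos w hw).2 r).2
  have hpr : ∀ w, 0 < Q w → ∀ r, p (co r w) = p w.1.1 := fun w hw r =>
    D.hp _ _ ((hpos w hw).2 r).1 (hpos w hw).1 ((hpos w hw).2 r).2
  have hMr : ∀ w, 0 < Q w → ∀ r, M (co r w) = M w.1.1 := fun w hw r =>
    D.hM _ _ ((hpos w hw).2 r).1 (hpos w hw).1 ((hpos w hw).2 r).2
  obtain ⟨e, he⟩ : ∃ e : (Ω × Ω) × (Fin (n + n) → Ω × Ω) → Fin n → ε,
    e = fun w i => E (co (Fin.castAdd n i) w) := ⟨_, rfl⟩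
  obtain ⟨e', he'⟩ : ∃ e' : (Ω × Ω) × (Fin (n + n) → Ω × Ω) → Fin n → ε,
    e' = fun w i => E (co (Fin.natAdd n i) w) := ⟨_, rfl⟩
  obtain ⟨nu, hnu⟩ : ∃ nu : ζ → (Fin n → ε) → (Fin d → Fin (K + 1)) → Fin n → ℝ,
    nu = fun y f => mu η (Gam y) (fun i β => F y (f i) β) (fun i => X (f i)) := ⟨_, rfl⟩
  obtain ⟨Lf, hLf⟩ : ∃ Lf : (Ω × Ω) × (Fin (n + n) → Ω × Ω) → (Fin d → Fin (K + 1)) → ℝ,
    Lf = fun w β => ell K β (fun i => (p w.1.1 i : ℝ) / 2 ^ k) := ⟨_, rfl⟩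
  -- the bad events
  obtain ⟨A1, hA1⟩ : ∃ A1 : (Ω × Ω) × (Fin (n + n) → Ω × Ω) → Prop, A1 = fun w =>
    |(Matrix.of (fun i => X (E (co (Fin.castAdd n i) w)))).det| < η ^ n := ⟨_, rfl⟩
  obtain ⟨A2, hA2⟩ : ∃ A2 : (Ω × Ω) × (Fin (n + n) → Ω × Ω) → Prop, A2 = fun w =>
    |(Matrix.of (fun i => X (E (co (Fin.natAdd n i) w)))).det| < η ^ n := ⟨_, rfl⟩
  obtain ⟨A3, hA3⟩ : ∃ A3 : (Ω × Ω) × (Fin (n + n) → Ω × Ω) → Prop, A3 = fun w =>
    ∃ r, |∑ l, Gam (z (co r w)) l * X (E (co r w)) l| ≤ η := ⟨_, rfl⟩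
  obtain ⟨A4, hA4⟩ : ∃ A4 : (Ω × Ω) × (Fin (n + n) → Ω × Ω) → Prop, A4 = fun w =>
    ∃ r, lam < |∑ β, ell K β (fun i => (p (co r w) i : ℝ) / 2 ^ k) * F (z (co r w)) (E (co r w)) β +
      (∑ l, Gam (z (co r w)) l * X (E (co r w)) l) * ∑ j, M (co r w) j * X (E (co r w)) j| :=
    ⟨_, rfl⟩
  obtain ⟨Gv, hGv⟩ : ∃ Gv : Fin n → (Ω × Ω) × (Fin (n + n) → Ω × Ω) → (Fin d → Fin (K + 1)) → ℝ,
    Gv = fun i w β => F (z w.1.1) (e' w i) β + (∑ l, Gam (z w.1.1) l * X (e' w i) l) *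
      ∑ j, X (e' w i) j * nu (z w.1.1) (e w) β j := ⟨_, rfl⟩
  obtain ⟨A5, hA5⟩ : ∃ A5 : (Ω × Ω) × (Fin (n + n) → Ω × Ω) → Prop, A5 = fun w =>
    ∃ i, (¬ A1 w ∧ ¬ A3 w ∧ ¬ A4 w) ∧ ∃ β, 2 ^ v ≤ |Gv i w β| := ⟨_, rfl⟩
  -- the first family is good
  have hgd : ∀ w, 0 < Q w → ¬ A1 w → ¬ A3 w → Gd η (Gam (z w.1.1)) (fun i => X (e w i)) := by
    intro w hw h1 h3
    refine ⟨?_, fun i => ?_⟩
    · rw [hA1] at h1
      rw [he]
      exact not_lt.mp h1
    · rw [hA3] at h3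
      push Not at h3
      have h4 := h3 (Fin.castAdd n i)
      rw [hzr w hw] at h4
      rw [he]
      exact h4
  have hgd' : ∀ w, 0 < Q w → ¬ A2 w → ¬ A3 w → Gd η (Gam (z w.1.1)) (fun i => X (e' w i)) := by
    intro w hw h1 h3
    refine ⟨?_, fun i => ?_⟩
    · rw [hA2] at h1
      rw [he']
      exact not_lt.mp h1
    · rw [hA3] at h3
      push Not at h3
      have h4 := h3 (Fin.natAdd n i)
      rw [hzr w hw] at h4
      rw [he']
      exact h4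
  have hrl : ∀ w, 0 < Q w → ¬ A4 w → ∀ r, |∑ β, Lf w β * F (z w.1.1) (E (co r w)) β +
      (∑ l, Gam (z w.1.1) l * X (E (co r w)) l) * ∑ j, M w.1.1 j * X (E (co r w)) j| ≤ lam := by
    intro w hw h4 r
    rw [hA4] at h4
    push Not at h4
    have h5 := h4 r
    rw [hzr w hw, hpr w hw, hMr w hw] at h5
    rw [hLf]
    exact h5
  have hXr : ∀ w, 0 < Q w → ∀ r j, |X (E (co r w)) j| ≤ B := fun w hw r j =>
    D.hX _ ((hpos w hw).2 r).1 j
  have hFr : ∀ w, 0 < Q w → ∀ r β, |F (z w.1.1) (E (co r w)) β| ≤ Fm := fun w hw r β => by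
    have h1 := D.hF _ ((hpos w hw).2 r).1 β
    rw [hzr w hw] at h1
    exact h1
  have hx01 : ∀ w, 0 < Q w → (∀ i, 0 ≤ (p w.1.1 i : ℝ) / 2 ^ k) ∧
      ∀ i, (p w.1.1 i : ℝ) / 2 ^ k ≤ 1 := by
    intro w hw
    refine ⟨fun i => by positivity, fun i => ?_⟩
    rw [div_le_one (by positivity)]
    exact_mod_cast (D.hp2 _ (hpos w hw).1 i).le
  -- the reading
  have hread : ∀ i, Pb Q (fun w => (¬ A1 w ∧ ¬ A3 w ∧ ¬ A4 w) ∧ ∃ β, 2 ^ v ≤ |Gv i w β|) ≤ δ₃ := by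
    intro i
    have r1 := read_polyD (q := Q) hQl (fun w => ((fun r => E (co r w)), z w.1.1)) hK hd
      (k := k) (u := u) (v := v) (fun w => p w.1.1) (Gv i) (fun w => ¬ A1 w ∧ ¬ A3 w ∧ ¬ A4 w)
      (lam := lam1 n B η lam) (e := δ₂ + (n + n : ℕ) * δ₁) (e' := 0)
      (by
        unfold lam1
        positivity)
      (fun w hw => D.hp2 _ (hpos w hw).1)
      (by
        have f1 := fl_cop (N := n + n) D.hq D.hz p E D.hfree
        rw [← hQ] at f1
        have f2 := D.hfull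
        linarith)
      (le_of_eq (CH_eq_zero h0 (by
        intro w w' hw hw' h
        simp only [Prod.mk.injEq] at h
        obtain ⟨g1, g2⟩ := h
        have g3 : ∀ r, E (co r w) = E (co r w') := fun r => congrFun g1 r
        funext β
        rw [hGv]
        simp only
        have g4 : e w = e w' := by
          rw [he]
          funext i
          exact g3 _
        have g5 : e' w = e' w' := by
          rw [he']
          funext i
          exact g3 _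
        rw [g4, g5, g2])))
      (by
        intro w hw hev
        obtain ⟨h1, h3, h4⟩ := hev
        have m1 := mu_rel (Fi := fun i β => F (z w.1.1) (e w i) β) hη hB
          (Xe := fun i => X (e w i)) (G := Gam (z w.1.1)) (fun i j => by
            rw [he]
            exact hXr w hw _ _) (hgd w hw h1 h3) (D.hG _ (hpos w hw).1).1 (Lf w) (M w.1.1) hlam
          (fun i => by
            rw [he]
            exact hrl w hw h4 _) (fun β => F (z w.1.1) (e' w i) β) (X (e' w i)) (fun j => by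
            rw [he']
            exact hXr w hw _ _) (by
            rw [he']
            exact hrl w hw h4 _)
        rw [hLf] at m1
        rw [hGv, hnu]
        exact m1) hu huv hvk
    rw [add_zero] at r1
    have r2 := r1.trans hδ₃
    exact le_of_mul_le_mul_right r2 hR
  -- the probability of the bad event
  have p1 : Pb Q A1 ≤ n * c := by
    rw [← Pool.V1E.Pb_law, hQ, hA1]
    exact span_PL D.hq D.nh hη x (fun _ : Fin (n + n) => true) true (Fin.castAdd n)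
      (Fin.castAdd_injective n n) fun _ => rfl
  have p2 : Pb Q A2 ≤ n * c := by
    rw [← Pool.V1E.Pb_law, hQ, hA2]
    exact span_PL D.hq D.nh hη x (fun _ : Fin (n + n) => true) true (Fin.natAdd n)
      (Fin.natAdd_injective n n) fun _ => rfl
  have p3 : Pb Q A3 ≤ (n + n) * c := by
    rw [hA3]
    refine (Pb_ex' h0 _).trans ?_
    refine (Finset.sum_le_card_nsmul _ _ c fun r _ => ?_).trans (le_of_eq ?_)
    · have s1 : Pb Q (fun w => |∑ l, Gam (z (co r w)) l * X (E (co r w)) l| ≤ η) =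
          Pb q (fun ω => |∑ l, Gam (z ω) l * X (E ω) l| ≤ η) := by
        rw [hQ]
        exact Pb_mg (CL_co D.hq x r) (fun ω => |∑ l, Gam (z ω) l * X (E ω) l| ≤ η)
      rw [s1, ← Pool.V1E.Pb_law]
      exact nh_det D.hq.nonneg D.nh D.hz Gam fun ω hω => D.hG ω hω
    · rw [Finset.card_univ, Fintype.card_fin, nsmul_eq_mul]
      push_cast
      ring
  have p4 : Pb Q A4 ≤ (n + n) * δ₀ := by
    rw [hA4]
    refine (Pb_ex' h0 _).trans ?_
    refine (Finset.sum_le_card_nsmul _ _ δ₀ fun r _ => ?_).trans (le_of_eq ?_)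
    · refine le_trans (le_of_eq ?_) D.hrel
      rw [hQ]
      exact Pb_mg (CL_co D.hq x r) (fun ω => lam < |∑ β, ell K β (fun i => (p ω i : ℝ) / 2 ^ k) *
        F (z ω) (E ω) β + (∑ l, Gam (z ω) l * X (E ω) l) * ∑ j, M ω j * X (E ω) j|)
    · rw [Finset.card_univ, Fintype.card_fin, nsmul_eq_mul]
      push_cast
      ring
  have p5 : Pb Q A5 ≤ n * δ₃ := by
    rw [hA5]
    refine (Pb_ex' h0 _).trans ?_
    refine (Finset.sum_le_card_nsmul _ _ δ₃ fun i _ => hread i).trans (le_of_eq ?_)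
    rw [Finset.card_univ, Fintype.card_fin, nsmul_eq_mul]
  obtain ⟨Bad, hBad⟩ : ∃ Bad : (Ω × Ω) × (Fin (n + n) → Ω × Ω) → Prop, Bad = fun w =>
    A1 w ∨ A2 w ∨ A3 w ∨ A4 w ∨ A5 w := ⟨_, rfl⟩
  have pB : Pb Q Bad ≤ bad := by
    rw [hBad]
    have t1 := Pb_or' h0 A1 (fun w => A2 w ∨ A3 w ∨ A4 w ∨ A5 w)
    have t2 := Pb_or' h0 A2 (fun w => A3 w ∨ A4 w ∨ A5 w)
    have t3 := Pb_or' h0 A3 (fun w => A4 w ∨ A5 w)
    have t4 := Pb_or' h0 A4 A5
    linarith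
  -- the two families
  obtain ⟨D1, hD1⟩ : ∃ D1, D1 = cK n B (η ^ n) * (2 ^ v / η) := ⟨_, rfl⟩
  rw [← hD1] at hh
  have hD10 : 0 ≤ D1 := by
    rw [hD1]
    positivity
  have htwo : ∀ w, 0 < Q w → ¬ Bad w → ∀ β j, |nu (z w.1.1) (e w) β j -
      nu (z w.1.1) (e' w) β j| ≤ D1 := by
    intro w hw hb β j
    rw [hBad] at hb
    push Not at hb
    obtain ⟨h1, h2, h3, h4, h5⟩ := hb
    rw [hA5] at h5
    push Not at h5
    have m1 := mu_two (Fe := fun i β => F (z w.1.1) (e w i) β) (Xe := fun i => X (e w i))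
      (G := Gam (z w.1.1)) hη hB (Fe' := fun i β => F (z w.1.1) (e' w i) β)
      (Xe' := fun i => X (e' w i)) (fun i j => by
        rw [he']
        exact hXr w hw _ _) (hgd' w hw h2 h3) (V := 2 ^ v) (by positivity) β (fun i => by
        have h6 := (h5 i ⟨h1, h3, h4⟩ β).le
        rw [hGv, hnu] at h6
        exact h6) j
    rw [hD1, hnu]
    exact m1
  -- the cells
  obtain ⟨cl, hcl⟩ : ∃ cl : (Ω × Ω) × (Fin (n + n) → Ω × Ω) →
    ((Fin d → Fin (K + 1)) × Fin n → ℤ), cl = fun w a => ⌊nu (z w.1.1) (e w) a.1 a.2⌋ := ⟨_, rfl⟩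
  have hMm : 0 ≤ Mm n B η Fm := by
    unfold Mm
    positivity
  have hnub : ∀ w, 0 < Q w → ∀ β j, |nu (z w.1.1) (e w) β j| ≤ Mm n B η Fm := by
    intro w hw β j
    rw [hnu]
    exact mu_bd hη hB (fun i j => by
      rw [he]
      exact hXr w hw _ _) hFm (fun i β => by
      rw [he]
      exact hFr w hw _ _) β j
  have c1 := Pool.V1E.CH_vecb hQl cl (fun w => (e' w, z w.1.1)) Bad (M := Mm n B η Fm + 1)
    (D := 2 * D1 + 1) pB (by linarith) (by linarith)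
    (by
      intro w hw a
      have h4 := hnub w hw a.1 a.2
      rw [hcl]
      have h5 := Int.floor_le (nu (z w.1.1) (e w) a.1 a.2)
      have h6 := Int.lt_floor_add_one (nu (z w.1.1) (e w) a.1 a.2)
      rw [abs_le] at h4 ⊢
      constructor <;> linarith [h4.1, h4.2])
    (by
      intro w w' hw hw' hg hg' h a
      simp only [Prod.mk.injEq] at h
      have h5 := htwo w hw hg a.1 a.2
      have h6 := htwo w' hw' hg' a.1 a.2
      rw [← h.1, ← h.2] at h6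
      rw [hcl]
      refine (Pool.V1E.floor_diff _ _).trans (add_le_add ?_ le_rfl)
      rw [h.2] at h5 h6
      have h7 : |nu (z w'.1.1) (e w) a.1 a.2 - nu (z w'.1.1) (e w') a.1 a.2| ≤ 2 * D1 := by
        have e1 : nu (z w'.1.1) (e w) a.1 a.2 - nu (z w'.1.1) (e w') a.1 a.2 =
            (nu (z w'.1.1) (e w) a.1 a.2 - nu (z w'.1.1) (e' w) a.1 a.2) -
            (nu (z w'.1.1) (e w') a.1 a.2 - nu (z w'.1.1) (e' w) a.1 a.2) := by ring
        rw [e1]
        refine (abs_sub _ _).trans ?_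
        linarith
      simp only [h.2]
      exact h7)
  have hcard : (Fintype.card ((Fin d → Fin (K + 1)) × Fin n) : ℝ) = (K + 1) ^ d * n := by
    rw [Fintype.card_prod, card_grid, Fintype.card_fin]
    push_cast
    ring
  rw [hcard] at c1
  have c2 := ind_cop (n := n) D.hq D.hz E D.hfree cl (by
    rw [← hQ]
    intro w w' hw hw' h
    simp only [Prod.mk.injEq] at h
    rw [hcl]
    funext a
    have h5 : e w = e w' := by
      rw [he]
      exact h.1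
    simp only [h5, h.2])
  rw [← hQ] at c2
  have c3 : CH Q cl (fun w => z w.1.1) ≤ h := by
    rw [he'] at c1
    linarith
  -- the most likely value
  obtain ⟨f, hf⟩ := pop_val hQl cl (fun w => z w.1.1) (fun w => ¬ Bad w) c3 (by
    rw [Pb_compl hQl.sum_one]
    linarith)
  refine ⟨fun y β j => (f y (β, j) : ℝ), hf.trans ?_⟩
  obtain ⟨i₀, -⟩ : ∃ i₀ : Fin n, True := ⟨⟨0, hn⟩, trivial⟩
  have t1 := Pb_mg (CL_co D.hq x (Fin.castAdd n i₀)) (fun ω =>
        (∀ j, |M ω j - ∑ β, ell K β (fun i => (p ω i : ℝ) / 2 ^ k) * (f (z ω) (β, j) : ℝ)| ≤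
          cK n B (η ^ n) * (lam / η) + (K + 1) ^ d * lgC K ^ d) ∧
        (∀ β, |F (z ω) (E ω) β + (∑ l, Gam (z ω) l * X (E ω) l) *
          ∑ j, X (E ω) j * (f (z ω) (β, j) : ℝ)| ≤ n * B * (n * B)) ∧
        ∀ β j, |(f (z ω) (β, j) : ℝ)| ≤ Mm n B η Fm + 1)
  rw [← hQ] at t1
  rw [← t1]
  refine Pb_mono' h0 fun w hw hwg => ?_
  obtain ⟨hb, hcf⟩ := hwg
  rw [hBad] at hb
  push Not at hb
  obtain ⟨h1, h2, h3, h4, h5⟩ := hb
  have hfn : ∀ β j, |nu (z w.1.1) (e w) β j - (f (z w.1.1) (β, j) : ℝ)| ≤ 1 := by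
    intro β j
    have g1 := congrFun hcf (β, j)
    rw [hcl] at g1
    simp only at g1
    rw [← g1]
    have h5 := Int.floor_le (nu (z w.1.1) (e w) β j)
    have h6 := Int.lt_floor_add_one (nu (z w.1.1) (e w) β j)
    rw [abs_le]
    constructor <;> linarith
  have hz1 := hzr w hw (Fin.castAdd n i₀)
  have hp1 := hpr w hw (Fin.castAdd n i₀)
  have hM1 := hMr w hw (Fin.castAdd n i₀)
  have hei : E (co (Fin.castAdd n i₀) w) = e w i₀ := by rw [he]
  have hHb : |∑ l, Gam (z w.1.1) l * X (e w i₀) l| ≤ n * B := by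
    refine (Finset.abs_sum_le_sum_abs _ _).trans ?_
    refine (Finset.sum_le_card_nsmul _ _ B fun l _ => ?_).trans (le_of_eq ?_)
    · rw [abs_mul]
      have g1 := (D.hG _ (hpos w hw).1).1 l
      have g2 : |X (e w i₀) l| ≤ B := by
        rw [← hei]
        exact hXr w hw _ _
      calc |Gam (z w.1.1) l| * |X (e w i₀) l| ≤ 1 * B :=
            mul_le_mul g1 g2 (abs_nonneg _) zero_le_one
        _ = B := one_mul _
    · rw [Finset.card_univ, Fintype.card_fin, nsmul_eq_mul]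
  simp only [hz1, hp1, hM1, hei]
  have hgood := hgd w hw h1 h3
  refine ⟨fun j => ?_, fun β => ?_, fun β j => ?_⟩
  · have m1 := mu_val (Fi := fun i β => F (z w.1.1) (e w i) β) hη hB
      (Xe := fun i => X (e w i)) (G := Gam (z w.1.1)) (fun i j => by
        rw [he]
        exact hXr w hw _ _) hgood (Lf w) (M w.1.1) hlam
      (fun i => by
        rw [he]
        exact hrl w hw h4 _) j
    have m2 := ell_sum (K := K) (hx01 w hw).1 (hx01 w hw).2
      (fun β => nu (z w.1.1) (e w) β j - (f (z w.1.1) (β, j) : ℝ)) (A := 1) (fun β => hfn β j)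
    rw [mul_one] at m2
    rw [hLf] at m1
    have e1 : M w.1.1 j - ∑ β, ell K β (fun i => (p w.1.1 i : ℝ) / 2 ^ k) *
        (f (z w.1.1) (β, j) : ℝ) =
        (M w.1.1 j - ∑ β, ell K β (fun i => (p w.1.1 i : ℝ) / 2 ^ k) *
          nu (z w.1.1) (e w) β j) +
        ∑ β, ell K β (fun i => (p w.1.1 i : ℝ) / 2 ^ k) * (nu (z w.1.1) (e w) β j -
          (f (z w.1.1) (β, j) : ℝ)) := by
      have e2 : ∑ β, ell K β (fun i => (p w.1.1 i : ℝ) / 2 ^ k) * (nu (z w.1.1) (e w) β j -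
          (f (z w.1.1) (β, j) : ℝ)) =
          ∑ β, ell K β (fun i => (p w.1.1 i : ℝ) / 2 ^ k) * nu (z w.1.1) (e w) β j -
          ∑ β, ell K β (fun i => (p w.1.1 i : ℝ) / 2 ^ k) * (f (z w.1.1) (β, j) : ℝ) := by
        rw [← Finset.sum_sub_distrib]
        exact Finset.sum_congr rfl fun β _ => by ring
      rw [e2]
      ring
    rw [e1]
    refine (abs_add_le _ _).trans (add_le_add ?_ m2)
    rw [hnu]
    exact m1
  · have m1 := mu_eq (Fe := fun i β => F (z w.1.1) (e w i) β) (Xe := fun i => X (e w i))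
      (G := Gam (z w.1.1)) hη hgood i₀ β
    have hH : η < |∑ l, Gam (z w.1.1) l * X (e w i₀) l| := hgood.2 i₀
    have hHn : (∑ l, Gam (z w.1.1) l * X (e w i₀) l) ≠ 0 := abs_pos.1 (hη.trans hH)
    have m2 : ∑ j, X (e w i₀) j * nu (z w.1.1) (e w) β j =
        -(F (z w.1.1) (e w i₀) β / ∑ l, Gam (z w.1.1) l * X (e w i₀) l) := by
      rw [hnu]
      exact m1
    have e1 : F (z w.1.1) (e w i₀) β + (∑ l, Gam (z w.1.1) l * X (e w i₀) l) *
        ∑ j, X (e w i₀) j * (f (z w.1.1) (β, j) : ℝ) =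
        -((∑ l, Gam (z w.1.1) l * X (e w i₀) l) * ∑ j, X (e w i₀) j *
          (nu (z w.1.1) (e w) β j - (f (z w.1.1) (β, j) : ℝ))) := by
      have e2 : ∑ j, X (e w i₀) j * (nu (z w.1.1) (e w) β j - (f (z w.1.1) (β, j) : ℝ)) =
          ∑ j, X (e w i₀) j * nu (z w.1.1) (e w) β j -
          ∑ j, X (e w i₀) j * (f (z w.1.1) (β, j) : ℝ) := by
        rw [← Finset.sum_sub_distrib]
        exact Finset.sum_congr rfl fun β _ => by ring
      rw [e2, m2]
      field_simp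
      ring
    rw [e1, abs_neg, abs_mul]
    refine mul_le_mul hHb ?_ (abs_nonneg _) (by positivity)
    refine (Finset.abs_sum_le_sum_abs _ _).trans ?_
    refine (Finset.sum_le_card_nsmul _ _ B fun j _ => ?_).trans (le_of_eq ?_)
    · rw [abs_mul]
      have g2 : |X (e w i₀) j| ≤ B := by
        rw [← hei]
        exact hXr w hw _ _
      calc _ ≤ B * 1 := mul_le_mul g2 (hfn β j) (abs_nonneg _) (by linarith)
        _ = B := mul_one _
    · rw [Finset.card_univ, Fintype.card_fin, nsmul_eq_mul]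
  · have g1 := hnub w hw β j
    have g2 := hfn β j
    rw [abs_le] at g1 g2 ⊢
    constructor <;> linarith [g1.1, g1.2, g2.1, g2.2]

end main

end Pool.V02G
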