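import Pool.Agent.H92.KPO.MAJ
import Pool.Agent.H92.D2.Cpg
import Pool.Agent.H21.RDP.Rdp

/-!
# The most likely value of a label with few bits

`pop_val`: a label with few bits given `z` is, on a part of an event of large probability which has
not too small a probability, a function of `z`.
-/

set_option autoImplicit false

namespace Pool.V02G

open Finset Real
open Pool.Agent.H49.Ent Pool.Agent.H32.Dense Pool.STK
open Pool.BFL (Pb)
open Pool.D2G30 (Pb_nn)

variable {Ω ζ κ : Type} [Fintype Ω]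

theorem Pb_mono' {q : Ω → ℝ} (h0 : ∀ ω, 0 ≤ q ω) {A B : Ω → Prop}
    (h : ∀ ω, 0 < q ω → A ω → B ω) : Pb q A ≤ Pb q B := by
  classical
  unfold Pb
  refine Finset.sum_le_sum fun ω _ => ?_
  rcases (h0 ω).eq_or_lt with h1 | h1
  · rw [← h1]
    split_ifs <;> exact le_rfl
  · by_cases hA : A ω
    · rw [if_pos hA, if_pos (h ω h1 hA)]
    · rw [if_neg hA]
      split_ifs
      exacts [h1.le, le_rfl]

/-- A tangent of the logarithm. -/
theorem log_tan {a r : ℝ} (ha : 0 < a) (hr : 0 < r) :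
    1 - Real.log a - r / a ≤ -Real.log r := by
  have h1 := Real.log_le_sub_one_of_pos (div_pos hr ha)
  rw [Real.log_div hr.ne' ha.ne'] at h1
  linarith

/-- **The most likely value.** -/
theorem pop_val [Nonempty κ] {q : Ω → ℝ} (hq : IsLaw q) (c : Ω → κ) (z : Ω → ζ) (G : Ω → Prop)
    {h : ℝ} (hc : CH q c z ≤ h) (hG : 1 / 2 ≤ Pb q G) :
    ∃ f : ζ → κ, Real.exp (-(2 * (h + Real.log 2))) / 2 ≤
      Pb q (fun ω => G ω ∧ c ω = f (z ω)) := by
  classical
  have h0 := hq.nonneg
  obtain ⟨c', hc'⟩ : ∃ c' : Ω → Bool × κ, c' = fun ω => (decide (G ω), c ω) := ⟨_, rfl⟩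
  have e1 : CH q c' z ≤ h + Real.log 2 := by
    have s1 := CH_subadd h0 (fun ω => decide (G ω)) c z
    have s2 := CH_le_card h0 hq.sum_one (fun ω => decide (G ω)) z
      (fun _ => (Finset.univ : Finset Bool)) (fun ω _ => Finset.mem_univ _)
    rw [Ex_const hq.sum_one, Finset.card_univ, Fintype.card_bool] at s2
    push_cast at s2
    rw [hc']
    linarith
  obtain ⟨w, hw⟩ : ∃ w : ζ → κ → ℝ, w = fun b y => law q (fun ω => (c' ω, z ω)) ((true, y), b) :=
    ⟨_, rfl⟩
  have hex : ∀ b : ζ, ∃ y : κ, ∀ y', w b y' ≤ w b y := by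
    intro b
    by_cases hΩ : Nonempty Ω
    · obtain ⟨y, _, hy⟩ := Finset.exists_max_image (Finset.univ.image c) (fun y => w b y)
        (Finset.Nonempty.image Finset.univ_nonempty c)
      refine ⟨y, fun x => ?_⟩
      by_cases hx : x ∈ Finset.univ.image c
      · exact hy x hx
      · have h2 : w b x = 0 := by
          rw [hw]
          unfold law
          refine Finset.sum_eq_zero fun ω _ => ?_
          rw [if_neg]
          intro h3
          rw [hc'] at h3
          have h4 : c ω = x := (Prod.mk.inj (Prod.mk.inj h3).1).2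
          exact hx (Finset.mem_image.mpr ⟨ω, Finset.mem_univ ω, h4⟩)
        rw [h2, hw]
        exact law_nonneg h0 _ _
    · refine ⟨Classical.arbitrary κ, fun x => ?_⟩
      have h2 : ∀ x, w b x = 0 := by
        intro x
        rw [hw]
        unfold law
        exact Finset.sum_eq_zero fun ω _ => absurd ⟨ω⟩ hΩ
      rw [h2, h2]
  choose f hf using hex
  refine ⟨f, ?_⟩
  obtain ⟨r, hr⟩ : ∃ r : Ω → ℝ, r = fun ω => w (z ω) (f (z ω)) / law q z (z ω) := ⟨_, rfl⟩
  obtain ⟨P, hP⟩ : ∃ P, P = Pb q (fun ω => G ω ∧ c ω = f (z ω)) := ⟨_, rfl⟩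
  have e2 : Ex q r = P := by
    have s1 := Pool.KPO.sum_cond_value h0 c' z (fun b => (true, f b))
    rw [hP]
    unfold Ex Pb
    rw [hr, hw]
    refine s1.trans (Finset.sum_congr rfl fun ω _ => ?_)
    have s2 : (c' ω = (true, f (z ω))) ↔ (G ω ∧ c ω = f (z ω)) := by
      rw [hc']
      simp only [Prod.mk.injEq, decide_eq_true_eq]
    by_cases h3 : G ω ∧ c ω = f (z ω)
    · rw [if_pos (s2.2 h3), if_pos h3]
    · rw [if_neg (fun h4 => h3 (s2.1 h4)), if_neg h3]
  rw [← hP]
  obtain ⟨H, hH⟩ : ∃ H, H = h + Real.log 2 := ⟨_, rfl⟩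
  rw [← hH] at e1 ⊢
  obtain ⟨a, ha⟩ : ∃ a, a = Real.exp (-(2 * H)) := ⟨_, rfl⟩
  have ha0 : 0 < a := by rw [ha]; exact Real.exp_pos _
  have hla : Real.log a = -(2 * H) := by rw [ha, Real.log_exp]
  have hH0 : 0 ≤ H := (CH_nonneg h0 c' z).trans e1
  -- the sum
  have e3 : Ex q (fun ω => (if G ω then (1 : ℝ) else 0) * (1 - Real.log a) - r ω / a) ≤ H := by
    refine le_trans ?_ e1
    rw [CH_eq_neg_sum h0]
    refine Ex_mono h0 fun ω hω => ?_
    have hz : 0 < law q z (z ω) := law_pos h0 z hω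
    have hr0 : 0 ≤ r ω := by
      rw [hr, hw]
      exact div_nonneg (law_nonneg h0 _ _) hz.le
    have hcc : 0 < law q (fun ω => (c' ω, z ω)) (c' ω, z ω) :=
      law_pos h0 (fun ω => (c' ω, z ω)) hω
    by_cases hG' : G ω
    · rw [if_pos hG', one_mul]
      have h4 : law q (fun ω => (c' ω, z ω)) (c' ω, z ω) = w (z ω) (c ω) := by
        rw [hw, hc']
        simp only [hG', decide_true]
      have h5 : law q (fun ω => (c' ω, z ω)) (c' ω, z ω) / law q z (z ω) ≤ r ω := by
        rw [hr, h4]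
        exact div_le_div_of_nonneg_right (hf _ _) hz.le
      have h6 := div_pos hcc hz
      have h7 : 0 < r ω := h6.trans_le h5
      have h8 := log_tan ha0 h7
      have h9 := Real.log_le_log h6 h5
      linarith
    · rw [if_neg hG', zero_mul, zero_sub]
      have h4 : law q (fun ω => (c' ω, z ω)) (c' ω, z ω) / law q z (z ω) ≤ 1 := by
        rw [div_le_one hz]
        exact law_mono_of_det h0 (X := fun ω => (c' ω, z ω)) (Y := z)
          (fun _ _ _ _ h5 => (Prod.ext_iff.1 h5).2) hω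
      have h5 := Real.log_nonpos (div_pos hcc hz).le h4
      have h6 := div_nonneg hr0 ha0.le
      linarith
  rw [Ex_sub, Pool.D2G30.Ex_ite] at e3
  have e4 : Ex q (fun ω => r ω / a) = P / a := by
    rw [← e2]
    unfold Ex
    rw [Finset.sum_div]
    exact Finset.sum_congr rfl fun ω _ => by ring
  rw [e4, hla] at e3
  have e5 : (1 / 2 : ℝ) * (1 - -(2 * H)) ≤ Pb q G * (1 - -(2 * H)) :=
    mul_le_mul_of_nonneg_right hG (by linarith)
  have e6 : (1 / 2 : ℝ) ≤ P / a := by linarith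
  rw [le_div_iff₀ ha0] at e6
  rw [← ha]
  linarith

end Pool.V02G
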